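import Mathlib

/-!
# Ryser's conjecture, `lambda = 2`: cyclic convolutions over reduced rings of characteristic two

For functions on `ZMod (2 ^ s)` with values in a reduced commutative ring of characteristic two
whose cyclic convolution vanishes:
* `pow_trick`: (sum of the first) * (every value of the second) = 0;
* `arm`: push both functions forward to `ZMod (2 ^ (s-1))`; then all products of values vanish.
-/

set_option autoImplicit false

namespace Pool.Agent.Helper18.Ryser

open Polynomial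

/-- The polynomial with the values of `f` as coefficients. -/
noncomputable def pol {F : Type*} [CommRing F] {N : ℕ} [NeZero N] (f : ZMod N → F) : F[X] :=
  ∑ p : ZMod N, C (f p) * X ^ p.val

section dom
variable {F : Type*} [CommRing F]

lemma X_pow_sub_one_dvd_pow_sub_pow (N a b : ℕ) (h : a % N = b % N) :
    (X ^ N - 1 : F[X]) ∣ X ^ a - X ^ b := by
  set I : Ideal F[X] := Ideal.span {X ^ N - 1}
  have h1 : (Ideal.Quotient.mk I X) ^ N = 1 := by
    have : Ideal.Quotient.mk I (X ^ N - 1) = 0 :=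
      Ideal.Quotient.eq_zero_iff_mem.2 (Ideal.mem_span_singleton_self _)
    simpa [sub_eq_zero] using this
  have h2 : Ideal.Quotient.mk I (X ^ a - X ^ b) = 0 := by
    rw [map_sub, map_pow, map_pow, sub_eq_zero, pow_eq_pow_mod a h1, pow_eq_pow_mod b h1, h]
  exact Ideal.mem_span_singleton.1 (Ideal.Quotient.eq_zero_iff_mem.1 h2)

lemma degree_pol_lt {N : ℕ} [NeZero N] (f : ZMod N → F) : (pol f).degree < N := by
  unfold pol
  refine lt_of_le_of_lt (degree_sum_le _ _) ?_
  rw [Finset.sup_lt_iff (by exact_mod_cast WithBot.bot_lt_coe N)]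
  intro p _
  refine lt_of_le_of_lt (degree_C_mul_X_pow_le _ _) ?_
  exact_mod_cast ZMod.val_lt p

lemma coeff_pol {N : ℕ} [NeZero N] (f : ZMod N → F) (p : ZMod N) :
    (pol f).coeff p.val = f p := by
  unfold pol
  rw [finsetSum_coeff, Finset.sum_eq_single p]
  · simp
  · intro q _ hq
    rw [coeff_C_mul_X_pow, if_neg]
    intro h
    exact hq (ZMod.val_injective N h.symm)
  · simp

lemma eq_zero_of_dvd_pol [IsDomain F] {N : ℕ} [NeZero N] (f : ZMod N → F)
    (h : (X ^ N - 1 : F[X]) ∣ pol f) : f = 0 := by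
  have hd : (X ^ N - 1 : F[X]).degree = N := by
    have := degree_X_pow_sub_C (Nat.pos_of_ne_zero (NeZero.ne N)) (1 : F)
    simpa using this
  have h0 : pol f = 0 := eq_zero_of_dvd_of_degree_lt h (by rw [hd]; exact degree_pol_lt f)
  funext p
  rw [← coeff_pol f p, h0]
  simp

lemma dvd_pol_mul_pol {N : ℕ} [NeZero N] (f h : ZMod N → F)
    (hfh : ∀ t, ∑ p, f p * h (t - p) = 0) : (X ^ N - 1 : F[X]) ∣ pol f * pol h := by
  have h1 : pol f * pol h = ∑ p : ZMod N, ∑ r : ZMod N, C (f p * h r) * X ^ (p.val + r.val) := by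
    unfold pol
    rw [Finset.sum_mul_sum]
    refine Finset.sum_congr rfl fun p _ => Finset.sum_congr rfl fun r _ => ?_
    rw [pow_add, C_mul]; ring
  have h2 : ∑ p : ZMod N, ∑ r : ZMod N, C (f p * h r) * (X : F[X]) ^ (p + r).val = 0 := by
    have h3 : ∀ p : ZMod N, ∑ r : ZMod N, C (f p * h r) * (X : F[X]) ^ (p + r).val
        = ∑ t : ZMod N, C (f p * h (t - p)) * (X : F[X]) ^ t.val := by
      intro p
      refine Fintype.sum_equiv (Equiv.addLeft p) _ _ ?_
      intro r
      simp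
    simp_rw [h3]
    rw [Finset.sum_comm]
    refine Finset.sum_eq_zero fun t _ => ?_
    rw [← Finset.sum_mul, ← map_sum, hfh t]
    simp
  have h4 : pol f * pol h = ∑ p : ZMod N, ∑ r : ZMod N,
      C (f p * h r) * (X ^ (p.val + r.val) - X ^ (p + r).val) := by
    have : ∑ p : ZMod N, ∑ r : ZMod N, C (f p * h r) * ((X : F[X]) ^ (p.val + r.val) - X ^ (p + r).val)
        = (∑ p : ZMod N, ∑ r : ZMod N, C (f p * h r) * (X : F[X]) ^ (p.val + r.val))
          - ∑ p : ZMod N, ∑ r : ZMod N, C (f p * h r) * (X : F[X]) ^ (p + r).val := by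
      simp only [mul_sub, Finset.sum_sub_distrib]
    rw [this, h2, sub_zero, h1]
  rw [h4]
  refine Finset.dvd_sum fun p _ => Finset.dvd_sum fun r _ => ?_
  refine Dvd.dvd.mul_left (X_pow_sub_one_dvd_pow_sub_pow N _ _ ?_) _
  rw [ZMod.val_add, Nat.mod_mod]

lemma X_pow_two_pow [IsDomain F] (h2 : (2 : F) = 0) (s : ℕ) : (X ^ (2 ^ s) - 1 : F[X]) = (X - 1) ^ (2 ^ s) := by
  have : CharP F 2 := CharTwo.of_one_ne_zero_of_two_eq_zero one_ne_zero h2
  rw [sub_pow_char_pow, one_pow]

lemma prime_X_sub_one [IsDomain F] : Prime (X - 1 : F[X]) := by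
  have := prime_X_sub_C (1 : F)
  simpa using this

lemma pow_trick_dom [IsDomain F] (h2 : (2 : F) = 0) {s : ℕ} (f h : ZMod (2 ^ s) → F)
    (hfh : ∀ t, ∑ p, f p * h (t - p) = 0) (p : ZMod (2 ^ s)) : (∑ i, f i) * h p = 0 := by
  have hd := dvd_pol_mul_pol f h hfh
  rw [X_pow_two_pow h2] at hd
  by_cases h0 : (X - 1 : F[X]) ∣ pol f
  · have : (pol f).eval 1 = 0 := by
      obtain ⟨g, hg⟩ := h0
      rw [hg]; simp
    have h3 : ∑ i, f i = 0 := by
      rw [← this]
      unfold pol
      simp [eval_finsetSum]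
    rw [h3, zero_mul]
  · have h3 := prime_X_sub_one.pow_dvd_of_dvd_mul_left _ h0 hd
    rw [← X_pow_two_pow h2] at h3
    rw [eq_zero_of_dvd_pol h h3]
    simp

end dom

/-- The reduction `ZMod (2 ^ (s+1)) → ZMod (2 ^ s)`. -/
def rho (s : ℕ) : ZMod (2 ^ (s + 1)) →+* ZMod (2 ^ s) :=
  ZMod.castHom (pow_dvd_pow 2 (Nat.le_succ s)) (ZMod (2 ^ s))

lemma val_rho (s : ℕ) (p : ZMod (2 ^ (s + 1))) : (rho s p).val = p.val % 2 ^ s := by
  have : rho s p = ((p.val : ℕ) : ZMod (2 ^ s)) := by
    rw [rho, ZMod.castHom_apply, ZMod.cast_eq_val]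
  rw [this, ZMod.val_natCast]

/-- Push forward along `rho s`. -/
def push {F : Type*} [AddCommMonoid F] {s : ℕ} (f : ZMod (2 ^ (s + 1)) → F) (u : ZMod (2 ^ s)) : F :=
  ∑ p : ZMod (2 ^ (s + 1)), if rho s p = u then f p else 0

section dom2
variable {F : Type*} [CommRing F]

lemma sum_push {G : Type*} [NonUnitalNonAssocSemiring G] {s : ℕ} (f : ZMod (2 ^ (s + 1)) → G)
    (g : ZMod (2 ^ s) → G) :
    ∑ u, push f u * g u = ∑ p, f p * g (rho s p) := by
  unfold push
  simp_rw [Finset.sum_mul]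
  rw [Finset.sum_comm]
  refine Finset.sum_congr rfl fun p _ => ?_
  rw [Finset.sum_eq_single (rho s p)]
  · simp
  · intro u _ hu
    rw [if_neg (Ne.symm hu), zero_mul]
  · simp

lemma dvd_pol_sub_pol_push {s : ℕ} (f : ZMod (2 ^ (s + 1)) → F) :
    (X ^ (2 ^ s) - 1 : F[X]) ∣ pol f - pol (push f) := by
  have h1 : pol (push f) = ∑ p : ZMod (2 ^ (s + 1)), C (f p) * X ^ (rho s p).val := by
    have h := sum_push (G := F[X]) (fun p => C (f p)) (fun u : ZMod (2 ^ s) => (X : F[X]) ^ u.val)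
    rw [← h]
    unfold pol push
    refine Finset.sum_congr rfl fun u _ => ?_
    rw [map_sum]
    congr 1
    refine Finset.sum_congr rfl fun p _ => ?_
    split_ifs <;> simp
  rw [h1]
  unfold pol
  rw [← Finset.sum_sub_distrib]
  refine Finset.dvd_sum fun p _ => ?_
  rw [← mul_sub]
  refine Dvd.dvd.mul_left ?_ _
  apply X_pow_sub_one_dvd_pow_sub_pow
  rw [val_rho, Nat.mod_mod]

lemma arm_dom [IsDomain F] (h2 : (2 : F) = 0) {s : ℕ} (f h : ZMod (2 ^ (s + 1)) → F)
    (hfh : ∀ t, ∑ p, f p * h (t - p) = 0) : push f = 0 ∨ push h = 0 := by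
  have hd : (X - 1 : F[X]) ^ (2 ^ s + 2 ^ s) ∣ pol f * pol h := by
    have hd := dvd_pol_mul_pol f h hfh
    rw [X_pow_two_pow h2] at hd
    refine dvd_trans (pow_dvd_pow _ ?_) hd
    rw [pow_succ]; omega
  have hp : Prime (X - 1 : F[X]) := prime_X_sub_one
  have key : (X - 1 : F[X]) ^ (2 ^ s) ∣ pol f ∨ (X - 1 : F[X]) ^ (2 ^ s) ∣ pol h := by
    by_contra hcon
    push Not at hcon
    obtain ⟨h1, h3⟩ := hcon
    rw [pow_dvd_iff_le_emultiplicity, not_le] at h1 h3
    rw [pow_dvd_iff_le_emultiplicity, emultiplicity_mul hp] at hd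
    have h4 := ENat.add_lt_add h1 h3
    refine absurd (lt_of_le_of_lt hd h4) ?_
    push_cast
    exact lt_irrefl _
  rw [← X_pow_two_pow h2] at key
  rcases key with hk | hk
  · left
    exact eq_zero_of_dvd_pol _ (by
      have := dvd_sub hk (dvd_pol_sub_pol_push f)
      simpa using this)
  · right
    exact eq_zero_of_dvd_pol _ (by
      have := dvd_sub hk (dvd_pol_sub_pol_push h)
      simpa using this)

end dom2

section red
variable {K : Type*} [CommRing K] [IsReduced K]

lemma eq_zero_of_forall_prime (a : K)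
    (h : ∀ J : Ideal K, J.IsPrime → Ideal.Quotient.mk J a = 0) : a = 0 := by
  apply IsReduced.eq_zero
  rw [nilpotent_iff_mem_prime]
  intro J hJ
  exact Ideal.Quotient.eq_zero_iff_mem.1 (h J hJ)

theorem pow_trick (h2 : (2 : K) = 0) {s : ℕ} (f h : ZMod (2 ^ s) → K)
    (hfh : ∀ t, ∑ p, f p * h (t - p) = 0) (p : ZMod (2 ^ s)) : (∑ i, f i) * h p = 0 := by
  apply eq_zero_of_forall_prime
  intro J hJ
  have := hJ
  have h2' : (2 : K ⧸ J) = 0 := by
    have := congrArg (Ideal.Quotient.mk J) h2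
    rwa [map_zero, map_ofNat] at this
  have := pow_trick_dom (F := K ⧸ J) h2' (fun i => Ideal.Quotient.mk J (f i))
    (fun i => Ideal.Quotient.mk J (h i)) (fun t => by
      have := congrArg (Ideal.Quotient.mk J) (hfh t)
      simpa using this) p
  simpa using this

theorem arm (h2 : (2 : K) = 0) {s : ℕ} (f h : ZMod (2 ^ (s + 1)) → K)
    (hfh : ∀ t, ∑ p, f p * h (t - p) = 0) (u u' : ZMod (2 ^ s)) :
    push f u * push h u' = 0 := by
  apply eq_zero_of_forall_prime
  intro J hJ
  have := hJ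
  have h2' : (2 : K ⧸ J) = 0 := by
    have := congrArg (Ideal.Quotient.mk J) h2
    rwa [map_zero, map_ofNat] at this
  have h3 := arm_dom (F := K ⧸ J) h2' (fun i => Ideal.Quotient.mk J (f i))
    (fun i => Ideal.Quotient.mk J (h i)) (fun t => by
      have := congrArg (Ideal.Quotient.mk J) (hfh t)
      simpa using this)
  have h4 : ∀ (g : ZMod (2 ^ (s + 1)) → K) (v : ZMod (2 ^ s)),
      Ideal.Quotient.mk J (push g v) = push (fun i => Ideal.Quotient.mk J (g i)) v := by
    intro g v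
    unfold push
    rw [map_sum]
    refine Finset.sum_congr rfl fun p _ => ?_
    split_ifs <;> simp
  rw [map_mul, h4, h4]
  rcases h3 with h3 | h3
  · rw [h3]; simp
  · rw [h3]; simp

end red

end Pool.Agent.Helper18.Ryser
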