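import Pool.Agent.Helper18.Ryser.Slices

/-!
# The endgame: no difference set with `lambda = 2` and `v`, `n` even in a group with a cyclic
Sylow 2-subgroup
-/

set_option autoImplicit false

namespace Pool.Agent.Helper18.Ryser

/-- the involution of `ZMod (2 ^ (s+1))` -/
def gam (s : ℕ) : ZMod (2 ^ (s + 1)) := ((2 ^ s : ℕ) : ZMod (2 ^ (s + 1)))

lemma val_gam (s : ℕ) : (gam s).val = 2 ^ s := by
  rw [gam, ZMod.val_natCast, Nat.mod_eq_of_lt]
  exact Nat.pow_lt_pow_right (by norm_num) (Nat.lt_succ_self s)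

lemma gam_ne_zero (s : ℕ) : gam s ≠ 0 := by
  intro h
  have := val_gam s
  rw [h, ZMod.val_zero] at this
  exact absurd this (by positivity)

lemma gam_add_gam (s : ℕ) : gam s + gam s = 0 := by
  unfold gam
  rw [← Nat.cast_add, ← two_mul, ← pow_succ']
  exact ZMod.natCast_self _

lemma rho_gam (s : ℕ) : rho s (gam s) = 0 := by
  rw [gam, map_natCast]
  exact ZMod.natCast_self _

lemma rho_eq_zero_iff (s : ℕ) (p : ZMod (2 ^ (s + 1))) : rho s p = 0 ↔ p = 0 ∨ p = gam s := by
  constructor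
  · intro h
    have h1 := val_rho s p
    rw [h, ZMod.val_zero] at h1
    have h2 := ZMod.val_lt p
    obtain ⟨c, hc⟩ := Nat.dvd_of_mod_eq_zero h1.symm
    have h3 : c < 2 := by
      rw [hc, pow_succ] at h2
      exact lt_of_mul_lt_mul_left h2 (Nat.zero_le _)
    interval_cases c
    · left
      exact (ZMod.val_eq_zero p).1 (by simpa using hc)
    · right
      apply ZMod.val_injective
      rw [val_gam, hc, mul_one]
  · rintro (rfl | rfl)
    · exact map_zero _
    · exact rho_gam s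

lemma rho_eq_iff (s : ℕ) (p q : ZMod (2 ^ (s + 1))) : rho s p = rho s q ↔ p = q ∨ p = q + gam s := by
  rw [← sub_eq_zero, ← map_sub, rho_eq_zero_iff, sub_eq_zero, sub_eq_iff_eq_add, add_comm (gam s)]

section endgame
variable {H : Type*} [AddCommGroup H] [DecidableEq H] {s : ℕ}
  {D : Finset (ZMod (2 ^ (s + 1)) × H)}

/-- differences lying over a given class -/
def W (D : Finset (ZMod (2 ^ (s + 1)) × H)) (q : ZMod (2 ^ (s + 1))) (h : H) :
    Finset ((ZMod (2 ^ (s + 1)) × H) × (ZMod (2 ^ (s + 1)) × H)) :=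
  (D ×ˢ D).filter (fun x => rho s (x.1.1 - x.2.1) = rho s q ∧ x.1.2 - x.2.2 = h)

lemma W_eq (q : ZMod (2 ^ (s + 1))) (h : H) : W D q h =
    (D ×ˢ D).filter (fun x => x.1 - x.2 = (q, h)) ∪
    (D ×ˢ D).filter (fun x => x.1 - x.2 = (q + gam s, h)) := by
  ext x
  simp only [W, Finset.mem_filter, Finset.mem_union, rho_eq_iff, Prod.ext_iff, Prod.fst_sub,
    Prod.snd_sub]
  tauto

lemma card_W_le (hrep : ∀ g : ZMod (2 ^ (s + 1)) × H, g ≠ 0 →
      ((D ×ˢ D).filter (fun x => x.1 - x.2 = g)).card = 2)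
    (q : ZMod (2 ^ (s + 1))) (h : H) (h0 : (q, h) ≠ (0, 0)) (h1 : (q, h) ≠ (gam s, 0)) :
    (W D q h).card ≤ 4 := by
  rw [W_eq]
  refine le_trans (Finset.card_union_le _ _) ?_
  rw [hrep (q, h) h0, hrep (q + gam s, h) ?_]
  intro h2
  rw [Prod.ext_iff] at h2
  obtain ⟨h3, h4⟩ := h2
  simp only [Prod.fst_zero, Prod.snd_zero] at h3 h4
  apply h1
  rw [Prod.ext_iff]
  refine ⟨?_, h4⟩
  simp only
  have := gam_add_gam s
  calc q = (q + gam s) - (gam s + gam s) + gam s := by abel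
    _ = gam s := by rw [h3, this]; abel

/-- The main counting claim. -/
lemma claim (hrep : ∀ g : ZMod (2 ^ (s + 1)) × H, g ≠ 0 →
      ((D ×ˢ D).filter (fun x => x.1 - x.2 = g)).card = 2)
    (hD0 : ((0 : ZMod (2 ^ (s + 1))), (0 : H)) ∈ D) (hD1 : (gam s, (0 : H)) ∈ D)
    (heven : ∀ u p h, Even (E D u p h))
    (q : ZMod (2 ^ (s + 1))) (h : H) (hq : (q, h) ∈ D)
    (h0 : (q, h) ≠ (0, 0)) (h1 : (q, h) ≠ (gam s, 0)) :
    (∀ x ∈ W D q h, rho s x.2.1 = 0) ∧ E D (rho s q) 0 h = 2 ∧ (W D q h).card = 4 := by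
  set E1 := (D ×ˢ D).filter (fun x => rho s x.1.1 = rho s q ∧ x.2.1 = 0 ∧ x.1.2 - x.2.2 = h)
    with hE1
  set E2 := (D ×ˢ D).filter (fun x => rho s x.1.1 = rho s q ∧ x.2.1 = gam s ∧ x.1.2 - x.2.2 = h)
    with hE2
  have e1 : Even E1.card := heven (rho s q) 0 h
  have e2 : Even E2.card := heven (rho s q) (gam s) h
  have m1 : ((q, h), ((0 : ZMod (2 ^ (s + 1))), (0 : H))) ∈ E1 := by
    simp [hE1, hq, hD0]
  have m2 : ((q, h), (gam s, (0 : H))) ∈ E2 := by
    simp [hE2, hq, hD1]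
  have c1 : 2 ≤ E1.card := by
    have := Finset.card_pos.2 ⟨_, m1⟩
    obtain ⟨r, hr⟩ := e1
    omega
  have c2 : 2 ≤ E2.card := by
    have := Finset.card_pos.2 ⟨_, m2⟩
    obtain ⟨r, hr⟩ := e2
    omega
  have hdis : Disjoint E1 E2 := by
    rw [Finset.disjoint_left]
    intro x hx hx'
    simp only [hE1, hE2, Finset.mem_filter] at hx hx'
    exact gam_ne_zero s (hx'.2.2.1.symm.trans hx.2.2.1)
  have hsub : E1 ∪ E2 ⊆ W D q h := by
    intro x hx
    rw [Finset.mem_union] at hx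
    rcases hx with hx | hx
    · simp only [hE1, Finset.mem_filter] at hx
      simp only [W, Finset.mem_filter]
      refine ⟨hx.1, ?_, hx.2.2.2⟩
      rw [hx.2.2.1, sub_zero]; exact hx.2.1
    · simp only [hE2, Finset.mem_filter] at hx
      simp only [W, Finset.mem_filter]
      refine ⟨hx.1, ?_, hx.2.2.2⟩
      rw [hx.2.2.1, map_sub, rho_gam, sub_zero]; exact hx.2.1
  have hW := card_W_le hrep q h h0 h1
  have hcu : (E1 ∪ E2).card = E1.card + E2.card := Finset.card_union_of_disjoint hdis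
  have hle := Finset.card_le_card hsub
  have heq : E1 ∪ E2 = W D q h := Finset.eq_of_subset_of_card_le hsub (by omega)
  refine ⟨?_, ?_, ?_⟩
  · intro x hx
    rw [← heq, Finset.mem_union] at hx
    rcases hx with hx | hx
    · simp only [hE1, Finset.mem_filter] at hx
      rw [hx.2.2.1, map_zero]
    · simp only [hE2, Finset.mem_filter] at hx
      rw [hx.2.2.1, rho_gam]
  · change E1.card = 2
    omega
  · omega

/-- Case `4 ∣ v`. -/
lemma endgame_pos (hs : 1 ≤ s) (hrep : ∀ g : ZMod (2 ^ (s + 1)) × H, g ≠ 0 →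
      ((D ×ˢ D).filter (fun x => x.1 - x.2 = g)).card = 2)
    (hD0 : ((0 : ZMod (2 ^ (s + 1))), (0 : H)) ∈ D) (hD1 : (gam s, (0 : H)) ∈ D)
    (huniq : ∀ a h, (a, h) ∈ D → (a + gam s, h) ∈ D → rho s a = 0)
    (heven : ∀ u p h, Even (E D u p h)) : False := by
  -- an element outside the two slices
  obtain ⟨q, h, hqh, hq⟩ : ∃ q h, (q, h) ∈ D ∧ rho s q ≠ 0 := by
    have h1 : ((1 : ZMod (2 ^ (s + 1))), (0 : H)) ≠ 0 := by
      intro h
      have := congrArg (fun x => rho s x.1) h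
      simp only [map_one, Prod.fst_zero, map_zero] at this
      have : Nontrivial (ZMod (2 ^ s)) := by
        have : Fact (1 < 2 ^ s) := ⟨Nat.one_lt_two_pow (by omega)⟩
        infer_instance
      exact one_ne_zero (by assumption)
    have h2 := hrep _ h1
    obtain ⟨x, hx⟩ : ((D ×ˢ D).filter (fun x => x.1 - x.2 = (1, 0))).Nonempty := by
      rw [← Finset.card_pos, h2]; norm_num
    simp only [Finset.mem_filter, Finset.mem_product, Prod.ext_iff, Prod.fst_sub] at hx
    obtain ⟨⟨ha, hb⟩, hc, _⟩ := hx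
    by_contra hcon
    push Not at hcon
    have h3 := hcon x.1.1 x.1.2 ha
    have h4 := hcon x.2.1 x.2.2 hb
    have h5 := congrArg (rho s) hc
    rw [map_sub, h3, h4, map_one, sub_zero] at h5
    have : Nontrivial (ZMod (2 ^ s)) := by
      have : Fact (1 < 2 ^ s) := ⟨Nat.one_lt_two_pow (by omega)⟩
      infer_instance
    exact zero_ne_one h5
  have hne0 : (q, h) ≠ (0, 0) := by
    intro h
    rw [Prod.ext_iff] at h
    apply hq
    rw [show q = 0 from h.1, map_zero]
  have hne1 : (q, h) ≠ (gam s, 0) := by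
    intro h
    rw [Prod.ext_iff] at h
    apply hq
    rw [show q = gam s from h.1, rho_gam]
  have hE := (claim hrep hD0 hD1 heven q h hqh hne0 hne1).2.1
  -- second element of E1
  have hE' : 1 < ((D ×ˢ D).filter (fun x => rho s x.1.1 = rho s q ∧ x.2.1 = 0 ∧
      x.1.2 - x.2.2 = h)).card := by
    change 1 < E D (rho s q) 0 h
    rw [hE]; norm_num
  obtain ⟨x, hx, hxne⟩ := Finset.exists_mem_ne hE' ((q, h), ((0 : ZMod (2 ^ (s + 1))), (0 : H)))
  simp only [Finset.mem_filter, Finset.mem_product] at hx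
  obtain ⟨⟨ha, hb⟩, hr, hz, hd⟩ := hx
  obtain ⟨⟨q', h'⟩, ⟨z, y⟩⟩ := x
  simp only at ha hb hr hz hd hxne
  subst hz
  by_cases hy : y = 0
  · subst hy
    rw [sub_zero] at hd
    subst hd
    rcases (rho_eq_iff s q' q).1 hr with h1 | h1
    · exact hxne (by rw [h1])
    · rw [h1] at ha
      exact hq (huniq q h' hqh ha)
  · have hcl := (claim hrep hD0 hD1 heven 0 y hb (by simpa [Prod.ext_iff] using hy)
      (by intro h; exact hy (Prod.ext_iff.1 h).2)).1
    have := hcl ((q', h'), (q, h)) (by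
      simp only [W, Finset.mem_filter, Finset.mem_product]
      refine ⟨⟨ha, hqh⟩, ?_, ?_⟩
      · rw [map_sub, hr, sub_self, map_zero]
      · rw [← hd]; abel)
    exact hq this

lemma card_diff_zero {G : Type*} [AddCommGroup G] [DecidableEq G] (D : Finset G) :
    ((D ×ˢ D).filter (fun x => x.1 - x.2 = 0)).card = D.card := by
  have : (D ×ˢ D).filter (fun x => x.1 - x.2 = 0) = D.diag := by
    ext x
    simp only [Finset.mem_filter, Finset.mem_product, Finset.mem_diag]
    constructor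
    · rintro ⟨⟨h1, h2⟩, h3⟩
      exact ⟨h1, sub_eq_zero.1 h3⟩
    · rintro ⟨h1, h2⟩
      exact ⟨⟨h1, h2 ▸ h1⟩, sub_eq_zero.2 h2⟩
  rw [this, Finset.diag_card]

lemma card_sq {G : Type*} [AddCommGroup G] [DecidableEq G] [Fintype G] (D : Finset G)
    (hrep : ∀ g : G, g ≠ 0 → ((D ×ˢ D).filter (fun x => x.1 - x.2 = g)).card = 2) :
    D.card * D.card = D.card + 2 * (Fintype.card G - 1) := by
  have h1 : (D ×ˢ D).card = ∑ g : G, ((D ×ˢ D).filter (fun x => x.1 - x.2 = g)).card :=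
    Finset.card_eq_sum_card_fiberwise (fun x _ => Finset.mem_univ _)
  rw [Finset.card_product, ← Finset.add_sum_erase Finset.univ _ (Finset.mem_univ (0 : G)),
    card_diff_zero, Finset.sum_congr rfl (fun g hg => hrep g (Finset.ne_of_mem_erase hg))] at h1
  rw [h1, Finset.sum_const, Finset.card_erase_of_mem (Finset.mem_univ _), Finset.card_univ,
    smul_eq_mul, mul_comm 2]

/-- Case `v ≡ 2 mod 4`. -/
lemma endgame_zero {D : Finset (ZMod (2 ^ (0 + 1)) × H)} [Fintype H]
    (hrep : ∀ g : ZMod (2 ^ (0 + 1)) × H, g ≠ 0 →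
      ((D ×ˢ D).filter (fun x => x.1 - x.2 = g)).card = 2)
    (hD0 : ((0 : ZMod (2 ^ (0 + 1))), (0 : H)) ∈ D) (hD1 : (gam 0, (0 : H)) ∈ D)
    (huniq : ∀ a h, (a, h) ∈ D → (a + gam 0, h) ∈ D → h = 0)
    (heven : ∀ u p h, Even (E D u p h)) (hcard : 2 < D.card) : False := by
  have hsub : ∀ u v : ZMod (2 ^ 0), u = v := fun u v => Subsingleton.elim (α := ZMod 1) u v
  have hcases : ∀ p : ZMod (2 ^ (0 + 1)), p = 0 ∨ p = gam 0 := fun p =>
    (rho_eq_zero_iff 0 p).1 (hsub _ _)
  have hg0 : gam 0 ≠ 0 := gam_ne_zero 0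
  have hza : (0 : ZMod (2 ^ (0 + 1))) + gam 0 = gam 0 := by abel
  set A := D.filter (fun b => b.1 = 0) with hA
  set B := D.filter (fun b => b.1 = gam 0) with hB
  have hAB : A.card + B.card = D.card := by
    rw [← Finset.card_union_of_disjoint]
    · congr 1
      ext b
      simp only [hA, hB, Finset.mem_union, Finset.mem_filter]
      have := hcases b.1
      tauto
    · rw [Finset.disjoint_left]
      intro x hx hx'
      simp only [hA, hB, Finset.mem_filter] at hx hx'
      exact hg0 (hx'.2.symm.trans hx.2)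
  -- W is independent of the class
  have hWmem : ∀ q h x, x ∈ W D q h ↔ x ∈ D ×ˢ D ∧ x.1.2 - x.2.2 = h := by
    intro q h x
    simp only [W, Finset.mem_filter]
    exact ⟨fun h => ⟨h.1, h.2.2⟩, fun h => ⟨h.1, hsub _ _, h.2⟩⟩
  have hW0 : (W D 0 0).card = D.card + 2 := by
    rw [W_eq, Finset.card_union_of_disjoint]
    · have h1 := card_diff_zero D
      rw [show ((D ×ˢ D).filter (fun x => x.1 - x.2 = ((0 : ZMod (2 ^ (0 + 1))), (0 : H)))).card
        = D.card from h1, hrep (0 + gam 0, 0) (by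
          intro h
          rw [hza] at h
          exact hg0 (Prod.ext_iff.1 h).1)]
    · rw [Finset.disjoint_left]
      intro x hx hx'
      simp only [Finset.mem_filter] at hx hx'
      have := (Prod.ext_iff.1 (hx.2.symm.trans hx'.2)).1
      exact hg0 (this.trans hza).symm
  have hE0 : E D 0 0 0 = A.card + 1 := by
    have h1 : (D ×ˢ D).filter (fun x => rho 0 x.1.1 = 0 ∧ x.2.1 = 0 ∧ x.1.2 - x.2.2 = 0)
        = insert ((gam 0, (0 : H)), ((0 : ZMod (2 ^ (0 + 1))), (0 : H))) A.diag := by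
      ext x
      obtain ⟨⟨a1, a2⟩, ⟨b1, b2⟩⟩ := x
      simp only [Finset.mem_filter, Finset.mem_product, Finset.mem_insert, Finset.mem_diag, hA,
        Prod.mk.injEq]
      constructor
      · rintro ⟨⟨ha, hb⟩, -, rfl, h2⟩
        have h3 : a2 = b2 := sub_eq_zero.1 h2
        subst h3
        rcases hcases a1 with rfl | rfl
        · right
          exact ⟨⟨ha, rfl⟩, rfl, rfl⟩
        · left
          have := huniq 0 a2 hb (by rwa [hza])
          subst this
          exact ⟨⟨rfl, rfl⟩, rfl, rfl⟩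
      · rintro (⟨⟨rfl, rfl⟩, rfl, rfl⟩ | ⟨⟨ha, rfl⟩, rfl, rfl⟩)
        · exact ⟨⟨hD1, hD0⟩, hsub _ _, rfl, sub_self _⟩
        · exact ⟨⟨ha, ha⟩, hsub _ _, rfl, sub_self _⟩
    unfold E
    rw [h1, Finset.card_insert_of_notMem, Finset.diag_card]
    simp only [Finset.mem_diag, Prod.mk.injEq]
    rintro ⟨-, h, -⟩
    exact hg0 h
  -- double count
  have hdc : ∑ d ∈ D, E D 0 0 d.2 = ∑ b ∈ A, (W D 0 b.2).card := by
    have l1 : ∀ d : ZMod (2 ^ (0 + 1)) × H, E D 0 0 d.2 = ∑ a ∈ D, ∑ b ∈ D, if b.1 = 0 ∧ a.2 - b.2 = d.2 then 1 else 0 := by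
      intro d
      unfold E
      rw [Finset.card_filter, Finset.sum_product]
      refine Finset.sum_congr rfl fun a _ => Finset.sum_congr rfl fun b _ => ?_
      have : rho 0 a.1 = 0 := hsub _ _
      simp only [this, true_and]
    have l2 : ∀ b : ZMod (2 ^ (0 + 1)) × H, (W D 0 b.2).card = ∑ a ∈ D, ∑ d ∈ D, if a.2 - d.2 = b.2 then 1 else 0 := by
      intro b
      unfold W
      rw [Finset.card_filter, Finset.sum_product]
      refine Finset.sum_congr rfl fun a _ => Finset.sum_congr rfl fun d _ => ?_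
      have : rho 0 (a.1 - d.1) = rho 0 0 := hsub _ _
      simp only [this, true_and]
    simp_rw [l1, l2]
    rw [Finset.sum_filter, Finset.sum_comm]
    have l3 : ∀ a ∈ D, ∑ d ∈ D, ∑ b ∈ D, (if b.1 = 0 ∧ a.2 - b.2 = d.2 then 1 else 0) =
        ∑ b ∈ D, if b.1 = 0 then ∑ d ∈ D, (if a.2 - d.2 = b.2 then 1 else 0) else 0 := by
      intro a _
      rw [Finset.sum_comm]
      refine Finset.sum_congr rfl fun b _ => ?_
      split_ifs with h
      · refine Finset.sum_congr rfl fun d _ => ?_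
        have : a.2 - b.2 = d.2 ↔ a.2 - d.2 = b.2 := by
          rw [sub_eq_iff_eq_add, sub_eq_iff_eq_add, add_comm d.2]
        simp [h, this]
      · simp [h]
    rw [Finset.sum_congr rfl l3, Finset.sum_comm]
    refine Finset.sum_congr rfl fun b _ => ?_
    split_ifs
    · rfl
    · simp
  have hA0 : ((0 : ZMod (2 ^ (0 + 1))), (0 : H)) ∈ A := by simp [hA, hD0]
  have hright : ∑ b ∈ A, (W D 0 b.2).card = (D.card + 2) + 4 * (A.card - 1) := by
    rw [← Finset.add_sum_erase A _ hA0, hW0]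
    congr 1
    rw [Finset.sum_congr rfl (g := fun _ => 4), Finset.sum_const, Finset.card_erase_of_mem hA0,
      smul_eq_mul, mul_comm]
    intro b hb
    rw [Finset.mem_erase] at hb
    obtain ⟨hb1, hb2⟩ := hb
    obtain ⟨b1, b2⟩ := b
    simp only [hA, Finset.mem_filter] at hb2
    obtain ⟨hb3, rfl⟩ := hb2
    exact (claim hrep hD0 hD1 heven 0 b2 hb3 hb1
      (by intro h; exact hg0 (Prod.ext_iff.1 h).1.symm)).2.2
  have hD1' : (gam 0, (0 : H)) ∈ D.erase (0, 0) := by
    rw [Finset.mem_erase]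
    exact ⟨fun h => hg0 (Prod.ext_iff.1 h).1, hD1⟩
  have hleft : ∑ d ∈ D, E D 0 0 d.2 = (A.card + 1) + ((A.card + 1) + 2 * (D.card - 2)) := by
    rw [← Finset.add_sum_erase D _ hD0, ← Finset.add_sum_erase _ _ hD1', hE0]
    congr 2
    rw [Finset.sum_congr rfl (g := fun _ => 2), Finset.sum_const, Finset.card_erase_of_mem hD1',
      Finset.card_erase_of_mem hD0, smul_eq_mul, mul_comm]
    · rfl
    intro d hd
    rw [Finset.mem_erase, Finset.mem_erase] at hd
    obtain ⟨hd1, hd2, hd3⟩ := hd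
    have := (claim hrep hD0 hD1 heven d.1 d.2 hd3 hd2 hd1).2.1
    rwa [hsub (rho 0 d.1) 0] at this
  have hA1 : 1 ≤ A.card := Finset.card_pos.2 ⟨_, hA0⟩
  have hkey : D.card = 2 * A.card := by
    rw [hdc, hright] at hleft
    omega
  have hsq := card_sq D hrep
  rw [Fintype.card_prod, ZMod.card] at hsq
  -- squares
  have hAA : A.card * A.card + B.card * B.card = D.card + 2 * (Fintype.card H - 1) := by
    have h1 : ((D ×ˢ D).filter (fun x => x.1.1 = x.2.1)).card =
        ∑ h : H, ((D ×ˢ D).filter (fun x => x.1 - x.2 = (0, h))).card := by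
      rw [Finset.card_eq_sum_card_fiberwise (f := fun x => x.1.2 - x.2.2) (t := Finset.univ)
        (fun x _ => Finset.mem_univ _)]
      refine Finset.sum_congr rfl fun h _ => ?_
      congr 1
      ext x
      simp only [Finset.mem_filter, Prod.ext_iff, Prod.fst_sub, Prod.snd_sub, sub_eq_zero, and_assoc]
    have h2 : (D ×ˢ D).filter (fun x => x.1.1 = x.2.1) = A ×ˢ A ∪ B ×ˢ B := by
      ext x
      simp only [hA, hB, Finset.mem_filter, Finset.mem_union, Finset.mem_product]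
      constructor
      · rintro ⟨⟨h1, h2⟩, h3⟩
        rcases hcases x.1.1 with h4 | h4
        · left; exact ⟨⟨h1, h4⟩, h2, h3 ▸ h4⟩
        · right; exact ⟨⟨h1, h4⟩, h2, h3 ▸ h4⟩
      · rintro (⟨⟨h1, h4⟩, h2, h5⟩ | ⟨⟨h1, h4⟩, h2, h5⟩)
        · exact ⟨⟨h1, h2⟩, h4.trans h5.symm⟩
        · exact ⟨⟨h1, h2⟩, h4.trans h5.symm⟩
    rw [h2, Finset.card_union_of_disjoint, Finset.card_product, Finset.card_product,
      ← Finset.add_sum_erase Finset.univ _ (Finset.mem_univ (0 : H))] at h1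
    · rw [h1]
      congr 1
      · exact card_diff_zero D
      · rw [Finset.sum_congr rfl (g := fun _ => 2), Finset.sum_const,
          Finset.card_erase_of_mem (Finset.mem_univ _), Finset.card_univ, smul_eq_mul, mul_comm]
        intro h hh
        exact hrep (0, h) (fun h' => Finset.ne_of_mem_erase hh (Prod.ext_iff.1 h').2)
    · rw [Finset.disjoint_left]
      intro x hx hx'
      simp only [hA, hB, Finset.mem_product, Finset.mem_filter] at hx hx'
      exact hg0 (hx'.1.2.symm.trans hx.1.2)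
  have hw : 1 ≤ Fintype.card H := Fintype.card_pos
  have hBA : B.card = A.card := by omega
  rw [hBA] at hAA
  rw [hkey] at hsq hAA hcard
  obtain ⟨w, hw'⟩ : ∃ w, Fintype.card H = w + 1 := ⟨Fintype.card H - 1, by omega⟩
  rw [hw'] at hsq hAA
  simp only [Nat.add_sub_cancel] at hAA
  have h5 : 2 ^ (0 + 1) * (w + 1) - 1 = 2 * w + 1 := by
    norm_num; omega
  rw [h5] at hsq
  nlinarith

end endgame

end Pool.Agent.Helper18.Ryser
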