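import Pool.Agent.Helper18.Ryser.Main

/-!
# Splitting off a cyclic Sylow 2-subgroup
-/

set_option autoImplicit false

namespace Pool.Agent.Helper18.Ryser

section split
variable {G : Type*} [AddCommGroup G] [Fintype G]

/-- the kernel of multiplication by `n` -/
def tor (G : Type*) [AddCommGroup G] (n : ℕ) : AddSubgroup G := (nsmulAddMonoidHom (α := G) n).ker

omit [Fintype G] in
lemma mem_tor {n : ℕ} {g : G} : g ∈ tor G n ↔ n • g = 0 := by
  simp [tor, AddMonoidHom.mem_ker]

/-- `G` is the product of its `a`- and `b`-torsion if `|G| = a b` with `a`, `b` coprime. -/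
lemma split_equiv (a b : ℕ) (hab : Nat.Coprime a b) (hcard : Fintype.card G = a * b) :
    Nonempty (G ≃+ tor G a × tor G b) := by
  -- Bezout
  have hbz : (1 : ℤ) = a * Nat.gcdA a b + b * Nat.gcdB a b := by
    have := Nat.gcd_eq_gcd_ab a b
    rwa [hab.gcd_eq_one, Nat.cast_one] at this
  have htot : ∀ g : G, (a * b) • g = 0 := fun g => by rw [← hcard]; exact card_nsmul_eq_zero
  let f : tor G a × tor G b →+ G := (tor G a).subtype.coprod (tor G b).subtype
  have hf : Function.Bijective f := by
    constructor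
    · rw [injective_iff_map_eq_zero]
      rintro ⟨⟨x, hx⟩, ⟨y, hy⟩⟩ h
      simp only [f, AddMonoidHom.coprod_apply, AddSubgroup.subtype_apply] at h
      rw [mem_tor] at hx hy
      have hxy : x = -y := eq_neg_of_add_eq_zero_left h
      have hxb : b • x = 0 := by rw [hxy, smul_neg, hy, neg_zero]
      have hx0 : x = 0 := by
        have : (1 : ℤ) • x = 0 := by
          rw [hbz, add_smul, mul_comm (a : ℤ), mul_comm (b : ℤ), mul_smul, mul_smul,
            natCast_zsmul, natCast_zsmul, hx, hxb]
          simp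
        simpa using this
      have hy0 : y = 0 := by rw [hx0, zero_add] at h; exact h
      simp [Prod.ext_iff, hx0, hy0]
    · intro g
      refine ⟨(⟨(b * Nat.gcdB a b : ℤ) • g, ?_⟩, ⟨(a * Nat.gcdA a b : ℤ) • g, ?_⟩), ?_⟩
      · rw [mem_tor, ← natCast_zsmul, ← mul_smul]
        have : ((a : ℤ) * (b * Nat.gcdB a b)) = Nat.gcdB a b * ((a * b : ℕ) : ℤ) := by
          push_cast; ring
        rw [this, mul_smul, natCast_zsmul, htot, smul_zero]
      · rw [mem_tor, ← natCast_zsmul, ← mul_smul]
        have : ((b : ℤ) * (a * Nat.gcdA a b)) = Nat.gcdA a b * ((a * b : ℕ) : ℤ) := by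
          push_cast; ring
        rw [this, mul_smul, natCast_zsmul, htot, smul_zero]
      · simp only [f, AddMonoidHom.coprod_apply, AddSubgroup.subtype_apply]
        rw [← add_smul, add_comm, ← hbz, one_smul]
  exact ⟨(AddEquiv.ofBijective f hf).symm⟩

lemma split_cyclic (P : AddSubgroup G) (hP : IsAddCyclic P) (hodd : Odd P.index) :
    ∃ (s : ℕ) (H : AddSubgroup G), Odd (Nat.card H) ∧ Nonempty (G ≃+ ZMod (2 ^ s) × H) := by
  have hne : Fintype.card G ≠ 0 := Fintype.card_ne_zero
  obtain ⟨s, w, hw, hcard⟩ := Nat.exists_eq_two_pow_mul_odd hne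
  have hcop : Nat.Coprime (2 ^ s) w := Nat.Coprime.pow_left s (Nat.coprime_two_left.2 hw)
  obtain ⟨e⟩ := split_equiv (2 ^ s) w hcop hcard
  have hHodd : Odd (Nat.card (tor G w)) := by
    by_contra hcon
    rw [Nat.not_odd_iff_even] at hcon
    obtain ⟨x, hx⟩ := exists_prime_addOrderOf_dvd_card' 2 (even_iff_two_dvd.1 hcon)
    have h1 : addOrderOf x ∣ w := by
      apply addOrderOf_dvd_of_nsmul_eq_zero
      have := x.2
      rw [mem_tor] at this
      exact Subtype.ext (by simpa using this)
    rw [hx] at h1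
    exact (Nat.not_even_iff_odd.2 hw) (even_iff_two_dvd.2 h1)
  have hTP : tor G (2 ^ s) ≤ P := by
    intro g hg
    rw [mem_tor] at hg
    have h1 : addOrderOf (QuotientAddGroup.mk g : G ⧸ P) ∣ 2 ^ s := by
      apply addOrderOf_dvd_of_nsmul_eq_zero
      rw [← QuotientAddGroup.mk_nsmul, hg]
      rfl
    have h2 : addOrderOf (QuotientAddGroup.mk g : G ⧸ P) ∣ P.index := addOrderOf_dvd_natCard _
    have h3 : Nat.Coprime (2 ^ s) P.index := Nat.Coprime.pow_left s (Nat.coprime_two_left.2 hodd)
    have h4 : addOrderOf (QuotientAddGroup.mk g : G ⧸ P) = 1 :=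
      Nat.eq_one_of_dvd_coprimes h3 h1 h2
    rw [AddMonoid.addOrderOf_eq_one_iff] at h4
    exact (QuotientAddGroup.eq_zero_iff g).1 h4
  have hTc : IsAddCyclic (tor G (2 ^ s)) := by
    have : IsAddCyclic P := hP
    exact isAddCyclic_of_injective (AddSubgroup.inclusion hTP) (AddSubgroup.inclusion_injective hTP)
  -- cardinality of the 2-part
  have hTcard : Nat.card (tor G (2 ^ s)) = 2 ^ s := by
    have h1 : Nat.card G = Nat.card (tor G (2 ^ s)) * Nat.card (tor G w) := by
      rw [← Nat.card_prod]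
      exact Nat.card_congr e.toEquiv
    rw [Nat.card_eq_fintype_card, hcard] at h1
    have h2 : 2 ^ s ∣ Nat.card (tor G (2 ^ s)) := by
      have h3 : Nat.Coprime (2 ^ s) (Nat.card (tor G w)) :=
        Nat.Coprime.pow_left s (Nat.coprime_two_left.2 hHodd)
      exact h3.dvd_of_dvd_mul_right (h1 ▸ Dvd.intro w rfl)
    have h4 : Nat.card (tor G (2 ^ s)) ∣ 2 ^ s := by
      obtain ⟨g, hg⟩ := hTc.exists_generator
      have h5 : addOrderOf g = Nat.card (tor G (2 ^ s)) :=
        addOrderOf_eq_card_of_forall_mem_zmultiples hg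
      rw [← h5]
      apply addOrderOf_dvd_of_nsmul_eq_zero
      have := g.2
      rw [mem_tor] at this
      exact Subtype.ext (by simpa using this)
    exact Nat.dvd_antisymm h4 h2
  have e2 : ZMod (2 ^ s) ≃+ tor G (2 ^ s) := by
    have := zmodAddCyclicAddEquiv hTc
    rwa [hTcard] at this
  exact ⟨s, tor G w, hHodd, ⟨e.trans (e2.symm.prodCongr (AddEquiv.refl _))⟩⟩

end split

/-- **Lander's conjecture for `lambda = 2`, `p = 2`**: a nontrivial difference set with `lambda = 2`
in a finite abelian group with a cyclic subgroup of odd index. -/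
theorem main {G : Type*} [AddCommGroup G] [Fintype G] [DecidableEq G] (P : AddSubgroup G)
    (hP : IsAddCyclic P) (hodd : Odd P.index) (D : Finset G) (h1 : 1 < D.card)
    (h2 : D.card + 1 < Fintype.card G) (hrep : Reps D 2) :
    Nat.gcd (Fintype.card G) (D.card - 2) = 1 := by
  classical
  obtain ⟨s, H, hH, ⟨e⟩⟩ := split_cyclic P hP hodd
  have hcard : Fintype.card G = 2 ^ s * Fintype.card H := by
    rw [Fintype.card_congr e.toEquiv, Fintype.card_prod, ZMod.card]
  rw [Nat.card_eq_fintype_card] at hH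
  have h := abelian hH s (D.map e.toEquiv.toEmbedding) (by rwa [Finset.card_map])
    (by rwa [Finset.card_map, ← hcard]) (hrep.map e)
  rwa [Finset.card_map, ← hcard] at h

end Pool.Agent.Helper18.Ryser
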