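import Pool.Agent.Helper18.Ryser.Endgame

/-!
# Difference sets with `lambda = 2`
-/

set_option autoImplicit false

namespace Pool.Agent.Helper18.Ryser

/-- Every nonzero element is a difference of two elements of `D` in exactly `lam` ways. -/
def Reps {G : Type*} [AddCommGroup G] [DecidableEq G] (D : Finset G) (lam : ℕ) : Prop :=
  ∀ g : G, g ≠ 0 → ((D ×ˢ D).filter (fun x => x.1 - x.2 = g)).card = lam

lemma Reps.map {G G' : Type*} [AddCommGroup G] [DecidableEq G] [AddCommGroup G'] [DecidableEq G']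
    (e : G ≃+ G') {D : Finset G} {lam : ℕ} (h : Reps D lam) :
    Reps (D.map e.toEquiv.toEmbedding) lam := by
  intro g hg
  rw [← h (e.symm g) (by simpa using hg)]
  symm
  refine Finset.card_bij (fun x _ => (e x.1, e x.2)) ?_ ?_ ?_
  · intro x hx
    simp only [Finset.mem_filter, Finset.mem_product] at hx
    simp only [Finset.mem_filter, Finset.mem_product, Finset.mem_map_equiv]
    refine ⟨⟨?_, ?_⟩, ?_⟩
    · simpa using hx.1.1
    · simpa using hx.1.2
    · rw [← map_sub, hx.2]; simp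
  · intro x _ y _ hxy
    simpa [Prod.ext_iff] using hxy
  · intro y hy
    simp only [Finset.mem_filter, Finset.mem_product, Finset.mem_map_equiv] at hy
    refine ⟨(e.symm y.1, e.symm y.2), ?_, by simp⟩
    simp only [Finset.mem_filter, Finset.mem_product]
    refine ⟨⟨hy.1.1, hy.1.2⟩, ?_⟩
    rw [← map_sub, hy.2]

lemma Reps.translate {G : Type*} [AddCommGroup G] [DecidableEq G] (c : G)
    {D : Finset G} {lam : ℕ} (h : Reps D lam) :
    Reps (D.map (Equiv.subRight c).toEmbedding) lam := by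
  intro g hg
  rw [← h g hg]
  symm
  refine Finset.card_bij (fun x _ => (x.1 - c, x.2 - c)) ?_ ?_ ?_
  · intro x hx
    simp only [Finset.mem_filter, Finset.mem_product] at hx
    simp only [Finset.mem_filter, Finset.mem_product, Finset.mem_map_equiv]
    refine ⟨⟨?_, ?_⟩, ?_⟩
    · simpa using hx.1.1
    · simpa using hx.1.2
    · rw [← hx.2]; abel
  · intro x _ y _ hxy
    simpa [Prod.ext_iff] using hxy
  · intro y hy
    simp only [Finset.mem_filter, Finset.mem_product, Finset.mem_map_equiv] at hy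
    refine ⟨(y.1 + c, y.2 + c), ?_, by simp⟩
    simp only [Finset.mem_filter, Finset.mem_product]
    refine ⟨⟨hy.1.1, hy.1.2⟩, ?_⟩
    rw [← hy.2]; abel

/-- No difference set with `lambda = 2`, `k > 2` even, in `ZMod (2 ^ (s+1)) × H`, `H` of odd order. -/
theorem no_diff_set {H : Type*} [AddCommGroup H] [Fintype H] [DecidableEq H]
    (hH : Odd (Fintype.card H)) (s : ℕ) (D : Finset (ZMod (2 ^ (s + 1)) × H))
    (hrep : Reps D 2) (hk : 2 < D.card) (hev : Even D.card) : False := by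
  -- normalise
  have hg1 : ((gam s, (0 : H)) : ZMod (2 ^ (s + 1)) × H) ≠ 0 := fun h =>
    gam_ne_zero s (Prod.ext_iff.1 h).1
  obtain ⟨x, hx⟩ : ((D ×ˢ D).filter (fun x => x.1 - x.2 = (gam s, (0 : H)))).Nonempty := by
    rw [← Finset.card_pos, hrep _ hg1]; norm_num
  simp only [Finset.mem_filter, Finset.mem_product] at hx
  obtain ⟨⟨hx1, hx2⟩, hx3⟩ := hx
  set D' := D.map (Equiv.subRight x.2).toEmbedding with hD'
  have hrep' : Reps D' 2 := hrep.translate x.2
  have hcard' : D'.card = D.card := Finset.card_map _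
  have h0 : ((0 : ZMod (2 ^ (s + 1))), (0 : H)) ∈ D' := by
    rw [hD', Finset.mem_map_equiv]
    change (0 : ZMod (2 ^ (s + 1)) × H) + x.2 ∈ D
    rwa [zero_add]
  have h1 : (gam s, (0 : H)) ∈ D' := by
    rw [hD', Finset.mem_map_equiv, ← hx3]
    simpa using hx1
  have huniq : ∀ a h, (a, h) ∈ D' → (a + gam s, h) ∈ D' → h = 0 ∧ rho s a = 0 := by
    intro a h ha hb
    have h2 := hrep' (gam s, (0 : H)) hg1
    set S := (D' ×ˢ D').filter (fun x => x.1 - x.2 = (gam s, (0 : H))) with hS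
    have m1 : ((gam s, (0 : H)), ((0 : ZMod (2 ^ (s + 1))), (0 : H))) ∈ S := by
      simp [hS, h0, h1]
    have hneg : -gam s = gam s := neg_eq_of_add_eq_zero_left (gam_add_gam s)
    have m2 : (((0 : ZMod (2 ^ (s + 1))), (0 : H)), (gam s, (0 : H))) ∈ S := by
      simp [hS, h0, h1, hneg]
    have m3 : ((a + gam s, h), (a, h)) ∈ S := by
      simp [hS, ha, hb]
    by_contra hcon
    have hne1 : ((a + gam s, h), (a, h)) ≠ ((gam s, (0 : H)), ((0 : ZMod (2 ^ (s + 1))), (0 : H))) := by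
      intro h3
      simp only [Prod.mk.injEq] at h3
      obtain ⟨_, h4, h5⟩ := h3
      exact hcon ⟨h5, by rw [h4, map_zero]⟩
    have hne2 : ((a + gam s, h), (a, h)) ≠ (((0 : ZMod (2 ^ (s + 1))), (0 : H)), (gam s, (0 : H))) := by
      intro h3
      simp only [Prod.mk.injEq] at h3
      obtain ⟨_, h4, h5⟩ := h3
      exact hcon ⟨h5, by rw [h4, rho_gam]⟩
    have hne3 : ((gam s, (0 : H)), ((0 : ZMod (2 ^ (s + 1))), (0 : H))) ≠
        (((0 : ZMod (2 ^ (s + 1))), (0 : H)), (gam s, (0 : H))) := by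
      intro h3
      simp only [Prod.mk.injEq] at h3
      exact gam_ne_zero s h3.1.1
    have hsub : ({((a + gam s, h), (a, h)), ((gam s, (0 : H)), ((0 : ZMod (2 ^ (s + 1))), (0 : H))),
        (((0 : ZMod (2 ^ (s + 1))), (0 : H)), (gam s, (0 : H)))} : Finset _) ⊆ S := by
      intro y hy
      simp only [Finset.mem_insert, Finset.mem_singleton] at hy
      rcases hy with rfl | rfl | rfl
      · exact m3
      · exact m1
      · exact m2
    have hle := Finset.card_le_card hsub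
    rw [h2, Finset.card_eq_three.2 ⟨_, _, _, hne1, hne2, hne3, rfl⟩] at hle
    omega
  -- arithmetic
  have hsq := card_sq D' hrep'
  rw [Fintype.card_prod, ZMod.card, hcard'] at hsq
  obtain ⟨w, hw⟩ := hH
  obtain ⟨κ, hκ⟩ := hev
  have hs : (s = 0 ∧ ∃ ν, D'.card = 2 * ν + 2) ∨ ∃ ν, Odd ν ∧ D'.card = 4 * ν + 2 := by
    rcases Nat.eq_zero_or_pos s with rfl | hs0
    · left
      exact ⟨rfl, κ - 1, by omega⟩
    · right
      obtain ⟨t, rfl⟩ : ∃ t, s = t + 1 := ⟨s - 1, by omega⟩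
      have h4 : 2 ^ (t + 1 + 1) * Fintype.card H = 4 * (2 ^ t * Fintype.card H) := by ring
      have hpos : 1 ≤ 2 ^ t * Fintype.card H := by
        have : 0 < Fintype.card H := Fintype.card_pos
        exact Nat.one_le_iff_ne_zero.2 (by positivity)
      rw [h4, hκ] at hsq
      obtain ⟨y, hy⟩ : ∃ y, 2 ^ t * Fintype.card H = y + 1 := ⟨_, (Nat.sub_add_cancel hpos).symm⟩
      rw [hy, show 4 * (y + 1) - 1 = 4 * y + 3 by omega] at hsq
      -- (2κ)^2 = 2κ + 8y + 6, so 2κ² = κ + 4 y + 3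
      have h5 : 2 * (κ * κ) = κ + 4 * y + 3 := by nlinarith
      have h6 : κ % 4 = 3 := by
        have h7 : (2 * (κ * κ)) % 4 = (κ + 4 * y + 3) % 4 := by rw [h5]
        have h8 : κ % 4 = 0 ∨ κ % 4 = 1 ∨ κ % 4 = 2 ∨ κ % 4 = 3 := by omega
        rcases h8 with h8 | h8 | h8 | h8
        · exfalso; simp [Nat.mul_mod, Nat.add_mod, h8] at h7
        · exfalso; simp [Nat.mul_mod, Nat.add_mod, h8] at h7
        · exfalso; simp [Nat.mul_mod, Nat.add_mod, h8] at h7
        · exact h8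
      refine ⟨(κ - 1) / 2, ?_, by omega⟩
      rw [Nat.odd_iff]
      omega
  have hH' : Odd (Fintype.card H) := ⟨w, hw⟩
  have heven : ∀ u p h, Even (E D' u p h) := fun u p h => even_E hH' D' hrep' hs u p h
  rcases Nat.eq_zero_or_pos s with rfl | hs0
  · exact endgame_zero hrep' h0 h1 (fun a h ha hb => (huniq a h ha hb).1) heven
      (by rw [hcard']; exact hk)
  · exact endgame_pos hs0 hrep' h0 h1 (fun a h ha hb => (huniq a h ha hb).2) heven

/-- Abelian version: Lander's conjecture for `lambda = 2`. -/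
theorem abelian {H : Type*} [AddCommGroup H] [Fintype H] [DecidableEq H]
    (hH : Odd (Fintype.card H)) (s : ℕ) (D : Finset (ZMod (2 ^ s) × H))
    (h1 : 1 < D.card) (h2 : D.card + 1 < 2 ^ s * Fintype.card H) (hrep : Reps D 2) :
    Nat.gcd (2 ^ s * Fintype.card H) (D.card - 2) = 1 := by
  have hsq := card_sq D hrep
  rw [Fintype.card_prod, ZMod.card] at hsq
  set v := 2 ^ s * Fintype.card H with hv
  obtain ⟨k, hk⟩ : ∃ k, D.card = k + 2 := ⟨D.card - 2, by omega⟩
  rw [hk] at hsq h1 h2 ⊢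
  rw [Nat.add_sub_cancel]
  obtain ⟨v', hv'⟩ : ∃ v', v = v' + 1 := ⟨v - 1, by omega⟩
  rw [hv', Nat.add_sub_cancel] at hsq
  by_contra hne
  obtain ⟨p, hp, hpd⟩ := Nat.exists_prime_and_dvd hne
  have hpv : p ∣ v := hpd.trans (Nat.gcd_dvd_left _ _)
  have hpk : p ∣ k := hpd.trans (Nat.gcd_dvd_right _ _)
  -- (k+2)^2 = 2 v + k
  have hsq' : (k + 2) * (k + 2) = 2 * v + k := by rw [hv']; omega
  have hp4 : p ∣ 4 := by
    have h3 : p ∣ (k + 2) * (k + 2) := by
      rw [hsq']; exact Dvd.dvd.add (Dvd.dvd.mul_left hpv _) hpk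
    have h4 : (k + 2) * (k + 2) = k * (k + 4) + 4 := by ring
    rw [h4] at h3
    exact (Nat.dvd_add_right (Dvd.dvd.mul_right hpk _)).1 h3
  have hp2 : p = 2 := by
    have : p ∣ 2 ^ 2 := by simpa using hp4
    exact (Nat.prime_dvd_prime_iff_eq hp Nat.prime_two).1 (hp.dvd_of_dvd_pow this)
  subst hp2
  rcases Nat.eq_zero_or_pos s with rfl | hs
  · rw [hv, pow_zero, one_mul] at hpv
    exact (Nat.not_even_iff_odd.2 hH) (even_iff_two_dvd.2 hpv)
  · obtain ⟨t, rfl⟩ : ∃ t, s = t + 1 := ⟨s - 1, by omega⟩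
    have hkpos : 0 < k := by
      rcases Nat.eq_zero_or_pos k with rfl | h
      · omega
      · exact h
    refine no_diff_set hH t D hrep (by omega) ?_
    rw [hk]
    exact (even_iff_two_dvd.2 hpk).add even_two

/-- Ryser's conjecture for `lambda = 2`. -/
theorem cyclic (v : ℕ) (D : Finset (ZMod v)) (h1 : 1 < D.card) (h2 : D.card + 1 < v)
    (hrep : Reps D 2) : Nat.gcd v (D.card - 2) = 1 := by
  have hv : v ≠ 0 := by omega
  obtain ⟨s, w, hw, rfl⟩ := Nat.exists_eq_two_pow_mul_odd hv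
  have hwne : w ≠ 0 := by rintro rfl; simp at hw
  have : NeZero w := ⟨hwne⟩
  have hcop : Nat.Coprime (2 ^ s) w := Nat.Coprime.pow_left s (Nat.coprime_two_left.2 hw)
  have h := abelian (H := ZMod w) (by rwa [ZMod.card]) s
    (D.map (ZMod.chineseRemainder hcop).toAddEquiv.toEquiv.toEmbedding)
    (by rwa [Finset.card_map]) (by rwa [Finset.card_map, ZMod.card])
    (hrep.map (ZMod.chineseRemainder hcop).toAddEquiv)
  rwa [Finset.card_map, ZMod.card] at h

end Pool.Agent.Helper18.Ryser
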