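import Pool.Agent.Helper18.Ryser.Chain

/-!
# The parity lemma

`A` is a torsion-free commutative ring with involution `σ` (later: the integral group ring of the
odd part `H`), `K = A/2` (later: the group algebra of `H` over `F_2`), in which `a ^ (j+1) = a` for
all `a`.  `D : ZMod (2 ^ (s+1)) → A` are the slices of a difference set with `lambda = 2`.
`parity_zero` (case `s = 0`) and `parity_pos` (case `s ≥ 1`, `n = 4 ν` with `ν` odd) say that in `K`
every value of the image of `D` on `ZMod (2 ^ s)` is orthogonal to every slice of `D`.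
-/

set_option autoImplicit false

namespace Pool.Agent.Helper18.Ryser

section corr
variable {K : Type*} [CommRing K] [IsReduced K]

/-- `pow_trick` in correlation form. -/
theorem pow_trick' (h2 : (2 : K) = 0) {s : ℕ} (f h : ZMod (2 ^ s) → K)
    (hfh : ∀ t, ∑ p, f (p + t) * h p = 0) (p : ZMod (2 ^ s)) : (∑ i, f i) * h p = 0 := by
  have := pow_trick h2 f (fun p => h (-p)) (fun t => by
    rw [← hfh t]
    refine Fintype.sum_equiv (Equiv.subRight t) _ _ ?_
    intro p
    simp) (-p)
  simpa using this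

lemma push_neg {F : Type*} [AddCommMonoid F] {s : ℕ} (h : ZMod (2 ^ (s + 1)) → F) (u : ZMod (2 ^ s)) :
    push (fun p => h (-p)) u = push h (-u) := by
  unfold push
  refine Fintype.sum_equiv (Equiv.neg _) _ _ ?_
  intro p
  simp only [Equiv.neg_apply, map_neg, neg_inj]

/-- `arm` in correlation form. -/
theorem arm' (h2 : (2 : K) = 0) {s : ℕ} (f h : ZMod (2 ^ (s + 1)) → K)
    (hfh : ∀ t, ∑ p, f (p + t) * h p = 0) (u u' : ZMod (2 ^ s)) : push f u * push h u' = 0 := by
  have := arm h2 f (fun p => h (-p)) (fun t => by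
    rw [← hfh t]
    refine Fintype.sum_equiv (Equiv.subRight t) _ _ ?_
    intro p
    simp) u (-u')
  rw [push_neg] at this
  simpa using this

end corr

lemma sum_push_eq {F : Type*} [AddCommMonoid F] {s : ℕ} (f : ZMod (2 ^ (s + 1)) → F) :
    ∑ u, push f u = ∑ p, f p := by
  unfold push
  rw [Finset.sum_comm]
  refine Finset.sum_congr rfl fun p _ => ?_
  simp

lemma map_push {F G : Type*} [AddCommMonoid F] [AddCommMonoid G] (φ : F →+ G) {s : ℕ}
    (f : ZMod (2 ^ (s + 1)) → F) (u : ZMod (2 ^ s)) : φ (push f u) = push (fun p => φ (f p)) u := by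
  unfold push
  rw [map_sum]
  refine Finset.sum_congr rfl fun p _ => ?_
  split_ifs <;> simp

lemma card_fiber_zero (s : ℕ) (t : ZMod (2 ^ s)) :
    (∑ p : ZMod (2 ^ (s + 1)), if rho s p = t then (1 : ℕ) else 0) = 2 := by
  have hconst : ∀ t : ZMod (2 ^ s), (∑ p : ZMod (2 ^ (s + 1)), if rho s p = t then (1 : ℕ) else 0)
      = ∑ p : ZMod (2 ^ (s + 1)), if rho s p = 0 then (1 : ℕ) else 0 := by
    intro t
    obtain ⟨t', ht'⟩ : ∃ t', rho s t' = t := ZMod.castHom_surjective _ t
    refine Fintype.sum_equiv (Equiv.subRight t') _ _ ?_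
    intro p
    simp [ht', sub_eq_zero]
  have hsum : ∑ t : ZMod (2 ^ s), (∑ p : ZMod (2 ^ (s + 1)), if rho s p = t then (1 : ℕ) else 0)
      = 2 ^ (s + 1) := by
    rw [Finset.sum_comm]
    simp [ZMod.card]
  simp_rw [hconst] at hsum ⊢
  simp only [Finset.sum_const, Finset.card_univ, ZMod.card, smul_eq_mul, pow_succ] at hsum
  exact Nat.eq_of_mul_eq_mul_left (by positivity) hsum

lemma push_corr {A : Type*} [CommRing A] {s : ℕ} (D E : ZMod (2 ^ (s + 1)) → A) (t : ZMod (2 ^ s)) :
    ∑ u, push D (u + t) * push E u = push (fun t' => ∑ p, D (p + t') * E p) t := by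
  have h1 : ∑ u, push D (u + t) * push E u = ∑ p, E p * push D (rho s p + t) := by
    have := sum_push E (fun u => push D (u + t))
    rw [← this]
    refine Finset.sum_congr rfl fun u _ => mul_comm _ _
  have h2 : ∀ p, push D (rho s p + t) = ∑ t' : ZMod (2 ^ (s + 1)), if rho s t' = t then D (p + t') else 0 := by
    intro p
    unfold push
    refine Fintype.sum_equiv (Equiv.subRight p) _ _ ?_
    intro p'
    simp only [Equiv.subRight_apply, map_sub, add_sub_cancel]
    congr 1
    rw [sub_eq_iff_eq_add, add_comm t]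
  rw [h1]
  simp_rw [h2, Finset.mul_sum]
  rw [Finset.sum_comm]
  unfold push
  refine Finset.sum_congr rfl fun t' _ => ?_
  split_ifs with h
  · refine Finset.sum_congr rfl fun p _ => mul_comm _ _
  · simp

lemma push_const {A : Type*} [CommRing A] {s : ℕ} (c : A) (t : ZMod (2 ^ s)) :
    push (s := s) (fun _ => c) t = 2 * c := by
  have h := card_fiber_zero s t
  have h2 : push (s := s) (fun _ => c) t =
      ((∑ p : ZMod (2 ^ (s + 1)), if rho s p = t then (1 : ℕ) else 0 : ℕ) : A) * c := by
    unfold push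
    push_cast
    rw [Finset.sum_mul]
    refine Finset.sum_congr rfl fun p _ => ?_
    split_ifs <;> simp
  rw [h2, h]; norm_num

lemma push_delta {A : Type*} [CommRing A] {s : ℕ} (c : A) (t : ZMod (2 ^ s)) :
    push (s := s) (fun p => if p = 0 then c else 0) t = if t = 0 then c else 0 := by
  unfold push
  rw [Finset.sum_eq_single 0]
  · simp [eq_comm]
  · intro p _ hp
    simp [hp]
  · simp

lemma push_add {A : Type*} [AddCommMonoid A] {s : ℕ} (f g : ZMod (2 ^ (s + 1)) → A) (t : ZMod (2 ^ s)) :
    push (fun p => f p + g p) t = push f t + push g t := by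
  unfold push
  rw [← Finset.sum_add_distrib]
  refine Finset.sum_congr rfl fun p _ => ?_
  split_ifs <;> simp

section main
variable {A K : Type*} [CommRing A] [CommRing K]

lemma isReduced_of_pow {j : ℕ} (hj : 1 ≤ j) (hpow : ∀ a : K, a ^ (j + 1) = a) : IsReduced K := by
  have h : ∀ n : ℕ, ∀ a : K, a ^ (n + 1) = 0 → a = 0 := by
    intro n
    induction n with
    | zero => intro a ha; simpa using ha
    | succ n ih =>
      intro a ha
      apply ih
      have h1 : (a ^ (n + 1)) ^ (j + 1) = 0 := by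
        obtain ⟨i, rfl⟩ : ∃ i, j = i + 1 := ⟨j - 1, by omega⟩
        rw [← pow_mul]
        have : (n + 1) * (i + 1 + 1) = (n + 1 + 1) + (n * (i + 1) + i) := by ring
        rw [this, pow_add, ha, zero_mul]
      rw [hpow] at h1
      exact h1
  constructor
  intro a ha
  obtain ⟨n, hn⟩ := ha
  exact h n a (by rw [pow_succ, hn, zero_mul])

/-- The parity lemma for `v ≡ 2 mod 4`. -/
theorem parity_zero (h2 : (2 : K) = 0) (σ : K →+* K) {j : ℕ} (hj : 1 ≤ j)
    (hpow : ∀ a : K, a ^ (j + 1) = a) {s : ℕ} (x : ZMod (2 ^ s) → K)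
    (hx : ∀ t, ∑ p, x (p + t) * σ (x p) = 0) (p : ZMod (2 ^ s)) : (∑ i, x i) * σ (x p) = 0 := by
  have := isReduced_of_pow hj hpow
  exact pow_trick' h2 x (fun p => σ (x p)) hx p

/-- The parity lemma for `4 ∣ v`. -/
theorem parity_pos (π : A →+* K) (hπ : Function.Surjective π)
    (hker : ∀ a, π a = 0 → ∃ b, a = 2 * b) (htf : ∀ a b : A, 2 * a = 2 * b → a = b)
    (τ : A →+* A) (σ : K →+* K) (hσ : ∀ a, σ (σ a) = a) (hτσ : ∀ a, π (τ a) = σ (π a))
    (h2 : (2 : K) = 0) {j : ℕ} (hj : 1 ≤ j) (hpow : ∀ a : K, a ^ (j + 1) = a)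
    {s : ℕ} (ν : ℕ) (hν : Odd ν) (J : A) (D : ZMod (2 ^ (s + 1 + 1)) → A)
    (hD : ∀ t, ∑ p, D (p + t) * τ (D p) = (if t = 0 then 4 * (ν : A) else 0) + 2 * J)
    (u : ZMod (2 ^ (s + 1))) (p : ZMod (2 ^ (s + 1 + 1))) :
    push (fun p => π (D p)) u * σ (π (D p)) = 0 := by
  have hred := isReduced_of_pow hj hpow
  set x : ZMod (2 ^ (s + 1 + 1)) → K := fun p => π (D p) with hxdef
  have hx : ∀ t, ∑ p, x (p + t) * σ (x p) = 0 := by
    intro t
    have h := congrArg π (hD t)
    rw [map_sum] at h
    simp only [map_mul, hτσ, map_add, map_ofNat, h2, zero_mul, add_zero] at h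
    rw [h]
    split_ifs with h0
    · rw [map_mul, show (4 : A) = 2 * 2 by norm_num, map_mul, map_ofNat, h2]; simp
    · simp
  set z : K := ∑ i, x i with hz
  have Z1 : ∀ p, z * σ (x p) = 0 := fun p => pow_trick' h2 x (fun p => σ (x p)) hx p
  have Z1' : ∀ p, σ z * x p = 0 := by
    intro p
    have := congrArg σ (Z1 p)
    rwa [map_mul, hσ, map_zero] at this
  have hpush : ∀ u, σ (push x u) = push (fun p => σ (x p)) u := fun u => map_push σ.toAddMonoidHom x u
  have hpushπ : ∀ u, π (push D u) = push x u := fun u => map_push π.toAddMonoidHom D u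
  have hpushτ : ∀ u, τ (push D u) = push (fun p => τ (D p)) u :=
    fun u => map_push τ.toAddMonoidHom D u
  have L1 : ∀ u u', push x u * σ (push x u') = 0 := by
    intro u u'
    rw [hpush]
    exact arm' h2 x (fun p => σ (x p)) hx u u'
  have Zp : ∀ u, σ z * push x u = 0 := by
    intro u
    unfold push
    rw [Finset.mul_sum]
    refine Finset.sum_eq_zero fun p _ => ?_
    split_ifs
    · exact Z1' p
    · simp
  -- the idempotents
  set e : K := z ^ j with he
  have hez : e * z = z := by rw [he, ← pow_succ, hpow]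
  set φ : K := (1 - e) * (1 - σ e) with hφ
  have hσφ : σ φ = φ := by
    rw [hφ, map_mul, map_sub, map_sub, map_one, hσ]; ring
  have hφz : φ * σ z = 0 := by
    have : (1 - σ e) * σ z = 0 := by
      rw [sub_mul, ← map_mul, hez]; ring
    rw [hφ, mul_assoc, this, mul_zero]
  -- the equation for the push forward
  have hDp : ∀ t, ∑ u, push D (u + t) * τ (push D u) =
      (if t = 0 then 4 * (ν : A) else 0) + 2 * (2 * J) := by
    intro t
    simp_rw [hpushτ]
    rw [push_corr D (fun p => τ (D p)) t]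
    simp_rw [hD]
    rw [push_add, push_delta, push_const]
  have hsumD : ∑ u, push D u = ∑ p, D p := sum_push_eq D
  have key : ∀ u', φ * σ (push x u') = 0 := by
    intro u'
    set c : K := φ * σ (push x u') with hc
    have hcx : ∀ u, c * push x u = 0 := by
      intro u
      rw [hc, mul_assoc, mul_comm (σ _), L1, mul_zero]
    obtain ⟨c', hc'⟩ := hπ c
    have hδ : ∀ u, ∃ b, c' * push D u = 2 * b := by
      intro u
      apply hker
      rw [map_mul, hc', hpushπ, hcx]
    choose δ hδ using hδ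
    have h1 : ∀ t, ∑ u, δ (u + t) * τ (push D u) =
        c' * ((if t = 0 then 2 * (ν : A) else 0) + 2 * J) := by
      intro t
      apply htf
      have h3 : 2 * ∑ u, δ (u + t) * τ (push D u) = c' * ∑ u, push D (u + t) * τ (push D u) := by
        rw [Finset.mul_sum, Finset.mul_sum]
        refine Finset.sum_congr rfl fun u _ => ?_
        rw [← mul_assoc, ← hδ]; ring
      rw [h3, hDp]
      split_ifs <;> ring
    have h2' : ∀ t, ∑ u, π (δ (u + t)) * σ (push x u) = 0 := by
      intro t
      have h := congrArg π (h1 t)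
      rw [map_sum] at h
      simp only [map_mul, hτσ, hpushπ, map_add, map_ofNat, h2, zero_mul, add_zero] at h
      rw [h]
      split_ifs with h0
      · rw [map_mul, map_ofNat, h2]; simp
      · simp
    have h3 : ∀ u, (∑ t, π (δ t)) * σ (push x u) = 0 := fun u =>
      pow_trick' h2 (fun u => π (δ u)) (fun u => σ (push x u)) h2' u
    -- sum over t
    have h4 : (∑ t, δ t) * τ (∑ p, D p) = c' * (2 * (ν : A) + 2 * ((2 : A) ^ (s + 1) * J)) := by
      have h5 : ∑ t, ∑ u, δ (u + t) * τ (push D u) = (∑ t, δ t) * τ (∑ p, D p) := by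
        rw [Finset.sum_comm, ← hsumD, map_sum, Finset.mul_sum]
        refine Finset.sum_congr rfl fun u _ => ?_
        rw [← Finset.sum_mul]
        congr 1
        exact Fintype.sum_equiv (Equiv.addLeft u) _ _ (fun t => rfl)
      rw [← h5]
      simp_rw [h1]
      rw [← Finset.mul_sum, Finset.sum_add_distrib]
      congr 1
      rw [Finset.sum_ite_eq' Finset.univ (0 : ZMod (2 ^ (s + 1))) (fun _ => 2 * (ν : A))]
      simp only [Finset.mem_univ, if_true, Finset.sum_const, Finset.card_univ, ZMod.card,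
        nsmul_eq_mul]
      push_cast
      ring
    obtain ⟨φ', hφ'⟩ := hπ φ
    obtain ⟨d, hd⟩ : ∃ d, φ' * τ (∑ p, D p) = 2 * d := by
      apply hker
      rw [map_mul, hφ', hτσ, map_sum]
      exact hφz
    have h6 : (∑ t, δ t) * d = φ' * c' * ((ν : A) + (2 : A) ^ (s + 1) * J) := by
      apply htf
      calc 2 * ((∑ t, δ t) * d) = (∑ t, δ t) * (2 * d) := by ring
        _ = φ' * ((∑ t, δ t) * τ (∑ p, D p)) := by rw [← hd]; ring
        _ = _ := by rw [h4]; ring
    have h7 : (∑ t, π (δ t)) * π d = φ * c := by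
      have h := congrArg π h6
      rw [map_mul, map_mul, map_mul, map_add, map_mul, map_pow, map_ofNat, h2, hc', hφ', map_sum,
        map_natCast] at h
      rw [h]
      obtain ⟨r, rfl⟩ := hν
      push_cast
      rw [h2]
      simp
    have h8 : φ * c * σ (push x u') = 0 := by
      rw [← h7, mul_assoc, mul_comm (π d), ← mul_assoc, h3, zero_mul]
    have h9 : c ^ 2 = 0 := by
      rw [← h8, hc]; ring
    exact pow_eq_zero_iff (two_ne_zero) |>.1 h9
  have key2 : ∀ u, φ * push x u = 0 := by
    intro u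
    have := congrArg σ (key u)
    rwa [map_mul, hσφ, hσ, map_zero] at this
  have h10 : σ e * push x u = 0 := by
    obtain ⟨i, rfl⟩ : ∃ i, j = i + 1 := ⟨j - 1, by omega⟩
    rw [he, map_pow, pow_succ, mul_assoc, Zp, mul_zero]
  have h11 : push x u = e * push x u := by
    have h := key2 u
    have : φ * push x u = push x u - e * push x u - (1 - e) * (σ e * push x u) := by
      rw [hφ]; ring
    rw [this, h10, mul_zero, sub_zero, sub_eq_zero] at h
    exact h
  have h12 : e * σ (x p) = 0 := by
    obtain ⟨i, rfl⟩ : ∃ i, j = i + 1 := ⟨j - 1, by omega⟩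
    rw [he, pow_succ, mul_assoc, Z1, mul_zero]
  change push x u * σ (x p) = 0
  rw [h11, mul_comm e, mul_assoc, h12, mul_zero]

end main

end Pool.Agent.Helper18.Ryser
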