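import Pool.Agent.Helper18.Ryser.Parity

/-!
# Slices of a subset of `ZMod (2 ^ s) × H` in the group ring of `H`
-/

set_option autoImplicit false

namespace Pool.Agent.Helper18.Ryser

open AddMonoidAlgebra

section frob
variable {H : Type*} [AddCommGroup H] [Fintype H] [DecidableEq H]

/-- reduction mod 2 -/
noncomputable def red (H : Type*) [AddCommGroup H] : AddMonoidAlgebra ℤ H →+* AddMonoidAlgebra (ZMod 2) H :=
  mapRingHom H (Int.castRingHom (ZMod 2))

/-- the involution -/
noncomputable def inv (R H : Type*) [CommRing R] [AddCommGroup H] :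
    AddMonoidAlgebra R H →+* AddMonoidAlgebra R H :=
  mapDomainRingHom R (negAddMonoidHom : H →+ H)

omit [Fintype H] [DecidableEq H] in
lemma inv_single {R : Type*} [CommRing R] (h : H) (r : R) :
    inv R H (single h r) = single (-h) r := by
  simp [inv]

omit [Fintype H] [DecidableEq H] in
lemma inv_inv' {R : Type*} [CommRing R] (a : AddMonoidAlgebra R H) : inv R H (inv R H a) = a := by
  have : (inv R H).comp (inv R H) = RingHom.id _ := by
    unfold inv
    rw [← mapDomainRingHom_comp]
    have : (negAddMonoidHom : H →+ H).comp negAddMonoidHom = AddMonoidHom.id H := by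
      ext; simp
    rw [this, mapDomainRingHom_id]
  exact congrArg (fun f => f a) this

omit [Fintype H] [DecidableEq H] in
lemma red_inv (a : AddMonoidAlgebra ℤ H) : red H (inv ℤ H a) = inv (ZMod 2) H (red H a) := by
  have := mapRingHom_comp_mapDomainRingHom (Int.castRingHom (ZMod 2)) (negAddMonoidHom : H →+ H)
  exact congrArg (fun f => f a) this

omit [Fintype H] [DecidableEq H] in
lemma red_surjective : Function.Surjective (red H) := by
  intro a
  induction a using AddMonoidAlgebra.induction_linear with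
  | zero => exact ⟨0, map_zero _⟩
  | add x y hx hy =>
    obtain ⟨x', rfl⟩ := hx
    obtain ⟨y', rfl⟩ := hy
    exact ⟨x' + y', map_add _ _ _⟩
  | single m r =>
    obtain ⟨r', rfl⟩ : ∃ r' : ℤ, Int.castRingHom (ZMod 2) r' = r := ZMod.intCast_surjective r
    exact ⟨single m r', mapRingHom_single _ _ _⟩

omit [DecidableEq H] in
lemma red_ker (a : AddMonoidAlgebra ℤ H) (h : red H a = 0) : ∃ b, a = 2 * b := by
  have h1 : ∀ x, ∃ c : ℤ, a.coeff x = 2 * c := by
    intro x
    have h2 : (red H a).coeff x = 0 := by rw [h]; rfl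
    rw [red, coeff_mapRingHom] at h2
    exact (ZMod.intCast_zmod_eq_zero_iff_dvd _ 2).1 h2
  choose c hc using h1
  refine ⟨ofCoeff (Finsupp.equivFunOnFinite.symm c), ?_⟩
  ext x
  rw [two_mul]
  simp [hc, two_mul]

omit [Fintype H] [DecidableEq H] in
lemma two_cancel (a b : AddMonoidAlgebra ℤ H) (h : 2 * a = 2 * b) : a = b := by
  ext x
  have h1 := congrArg (fun c => c.coeff x) h
  simp only [two_mul, coeff_add, Finsupp.add_apply] at h1
  omega

omit [Fintype H] [DecidableEq H] in
lemma two_eq_zero' : (2 : AddMonoidAlgebra (ZMod 2) H) = 0 := by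
  have h : (2 : AddMonoidAlgebra (ZMod 2) H) = 1 + 1 := one_add_one_eq_two.symm
  rw [h]
  ext x
  rw [coeff_add, Finsupp.add_apply]
  exact CharTwo.add_self_eq_zero _

omit [DecidableEq H] in
/-- For `H` of odd order some power `2 ^ m`, `m ≥ 1`, acts trivially on the group algebra. -/
lemma exists_pow (hH : Odd (Fintype.card H)) :
    ∃ j : ℕ, 1 ≤ j ∧ ∀ a : AddMonoidAlgebra (ZMod 2) H, a ^ (j + 1) = a := by
  set w := Fintype.card H
  have hcop : Nat.Coprime 2 w := Nat.coprime_two_left.2 hH
  have hphi : 1 ≤ Nat.totient w := Nat.totient_pos.2 (Fintype.card_pos)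
  have h2m : 2 ≤ 2 ^ Nat.totient w := by
    calc 2 = 2 ^ 1 := rfl
      _ ≤ _ := Nat.pow_le_pow_right (by norm_num) hphi
  refine ⟨2 ^ Nat.totient w - 1, by omega, ?_⟩
  rw [Nat.sub_add_cancel (by omega)]
  have : CharP (AddMonoidAlgebra (ZMod 2) H) 2 :=
    CharTwo.of_one_ne_zero_of_two_eq_zero one_ne_zero two_eq_zero'
  intro a
  induction a using AddMonoidAlgebra.induction_linear with
  | zero => exact zero_pow (by omega)
  | add x y hx hy => rw [add_pow_char_pow, hx, hy]
  | single m r =>
    rw [single_pow]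
    congr 1
    · have h1 : 2 ^ Nat.totient w ≡ 1 [MOD w] := Nat.ModEq.pow_totient hcop
      have h3 : 2 ^ Nat.totient w • m = 1 • m := by
        rw [← mod_card_nsmul, h1, mod_card_nsmul]
      rw [h3, one_nsmul]
    · have h4 : ∀ r : ZMod 2, ∀ n : ℕ, n ≠ 0 → r ^ n = r := by
        intro r n hn
        fin_cases r
        · exact zero_pow hn
        · exact one_pow n
      exact h4 r _ (by omega)

end frob

section slices
variable {H : Type*} [AddCommGroup H] [Fintype H] [DecidableEq H]
variable {P : Type*} [DecidableEq P]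

/-- The slice of `D` at `p`, an element of the integral group ring of `H`. -/
noncomputable def slc (D : Finset (P × H)) (p : P) : AddMonoidAlgebra ℤ H :=
  ∑ d ∈ D, if d.1 = p then single d.2 1 else 0

/-- The number of representations of `h` as a difference from the slices `p` and `p'`. -/
def R (D : Finset (P × H)) (p p' : P) (h : H) : ℕ :=
  ((D ×ˢ D).filter (fun x => x.1.1 = p ∧ x.2.1 = p' ∧ x.1.2 - x.2.2 = h)).card

omit [Fintype H] in
lemma coeff_slc_mul (D : Finset (P × H)) (p p' : P) (h : H) :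
    (slc D p * inv ℤ H (slc D p')).coeff h = (R D p p' h : ℤ) := by
  have h1 : slc D p * inv ℤ H (slc D p') = ∑ x ∈ D ×ˢ D,
      if x.1.1 = p ∧ x.2.1 = p' then single (x.1.2 - x.2.2) (1 : ℤ) else 0 := by
    unfold slc
    rw [map_sum, Finset.sum_mul_sum, Finset.sum_product]
    refine Finset.sum_congr rfl fun a _ => Finset.sum_congr rfl fun b _ => ?_
    by_cases h1 : a.1 = p <;> by_cases h2 : b.1 = p' <;>
      simp [h1, h2, inv_single, single_mul_single, sub_eq_add_neg]
  rw [h1, coeff_sum, Finsupp.finsetSum_apply, R, Finset.card_filter]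
  push_cast
  refine Finset.sum_congr rfl fun x _ => ?_
  by_cases h1 : x.1.1 = p <;> by_cases h2 : x.2.1 = p' <;>
      simp [h1, h2, Finsupp.single_apply]

variable [AddCommGroup P] [Fintype P]

omit [Fintype H] in
lemma sum_R (D : Finset (P × H)) (t : P) (h : H) :
    ∑ p, R D (p + t) p h = ((D ×ˢ D).filter (fun x => x.1 - x.2 = (t, h))).card := by
  unfold R
  rw [← Finset.card_biUnion]
  · congr 1
    ext x
    simp only [Finset.mem_biUnion, Finset.mem_univ, true_and, Finset.mem_filter, Prod.ext_iff,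
      Prod.fst_sub, Prod.snd_sub]
    constructor
    · rintro ⟨p, hx, h1, h2, h3⟩
      exact ⟨hx, by rw [h1, h2]; abel, h3⟩
    · rintro ⟨hx, h1, h2⟩
      exact ⟨x.2.1, hx, by rw [← h1]; abel, rfl, h2⟩
  · intro p _ p' _ hpp'
    simp only [Function.onFun]
    rw [Finset.disjoint_left]
    intro x hx hx'
    simp only [Finset.mem_filter] at hx hx'
    exact hpp' (hx.2.2.1.symm.trans hx'.2.2.1)

/-- the all-one element -/
noncomputable def allOne (H : Type*) [AddCommGroup H] [Fintype H] : AddMonoidAlgebra ℤ H :=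
  ∑ h : H, single h 1

lemma slc_corr (D : Finset (P × H)) (ν : ℕ)
    (hrep : ∀ g : P × H, g ≠ 0 → ((D ×ˢ D).filter (fun x => x.1 - x.2 = g)).card = 2)
    (hcard : D.card = ν + 2) (t : P) :
    ∑ p, slc D (p + t) * inv ℤ H (slc D p) = (if t = 0 then (ν : AddMonoidAlgebra ℤ H) else 0)
      + 2 * allOne H := by
  ext h
  rw [coeff_sum, Finsupp.finsetSum_apply]
  simp_rw [coeff_slc_mul]
  rw [← Nat.cast_sum, sum_R]
  have h1 : (allOne H).coeff h = 1 := by
    unfold allOne
    rw [coeff_sum, Finsupp.finsetSum_apply]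
    simp [Finsupp.single_apply]
  have h2 : ((2 : AddMonoidAlgebra ℤ H) * allOne H).coeff h = 2 := by
    rw [two_mul, coeff_add, Finsupp.add_apply, h1]; rfl
  rw [coeff_add, Finsupp.add_apply, h2]
  by_cases ht : t = 0
  · subst ht
    rw [if_pos rfl]
    have h3 : (ν : AddMonoidAlgebra ℤ H).coeff h = if h = 0 then (ν : ℤ) else 0 := by
      have : (ν : AddMonoidAlgebra ℤ H) = single 0 (ν : ℤ) := by
        rw [natCast_def]
      rw [this, coeff_single, Finsupp.single_apply]
      simp [eq_comm]
    rw [h3]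
    by_cases hh : h = 0
    · subst hh
      rw [if_pos rfl]
      have : (D ×ˢ D).filter (fun x => x.1 - x.2 = ((0 : P), (0 : H))) = D.diag := by
        ext x
        simp only [Finset.mem_filter, Finset.mem_product, Finset.mem_diag]
        constructor
        · rintro ⟨⟨h1, h2⟩, h3⟩
          exact ⟨h1, sub_eq_zero.1 h3⟩
        · rintro ⟨h1, h2⟩
          exact ⟨⟨h1, h2 ▸ h1⟩, sub_eq_zero.2 h2⟩
      rw [this, Finset.diag_card, hcard]
      push_cast; ring
    · rw [if_neg hh, hrep (0, h) (by simp [Prod.ext_iff, hh])]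
      norm_num
  · rw [if_neg ht, hrep (t, h) (by simp [Prod.ext_iff, ht])]
    simp

end slices

section even
variable {H : Type*} [AddCommGroup H] [Fintype H] [DecidableEq H]

/-- Number of representations of `h` with first slice above `u` and second slice `p`. -/
def E {s : ℕ} (D : Finset (ZMod (2 ^ (s + 1)) × H)) (u : ZMod (2 ^ s)) (p : ZMod (2 ^ (s + 1)))
    (h : H) : ℕ :=
  ((D ×ˢ D).filter (fun x => rho s x.1.1 = u ∧ x.2.1 = p ∧ x.1.2 - x.2.2 = h)).card

omit [Fintype H] in
lemma E_eq_sum {s : ℕ} (D : Finset (ZMod (2 ^ (s + 1)) × H)) (u : ZMod (2 ^ s))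
    (p : ZMod (2 ^ (s + 1))) (h : H) :
    E D u p h = ∑ p', if rho s p' = u then R D p' p h else 0 := by
  unfold E R
  rw [← Finset.sum_filter, ← Finset.card_biUnion]
  · congr 1
    ext x
    simp only [Finset.mem_biUnion, Finset.mem_univ, true_and, Finset.mem_filter]
    constructor
    · rintro ⟨hx, h1, h2, h3⟩
      exact ⟨x.1.1, h1, hx, rfl, h2, h3⟩
    · rintro ⟨p', h1, hx, rfl, h2, h3⟩
      exact ⟨hx, h1, h2, h3⟩
  · intro p1 _ p2 _ hpp
    simp only [Function.onFun]
    rw [Finset.disjoint_left]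
    intro x hx hx'
    simp only [Finset.mem_filter] at hx hx'
    exact hpp (hx.2.1.symm.trans hx'.2.1)

/-- The parity lemma in terms of representations. -/
theorem even_E (hH : Odd (Fintype.card H)) {s : ℕ} (D : Finset (ZMod (2 ^ (s + 1)) × H))
    (hrep : ∀ g : ZMod (2 ^ (s + 1)) × H, g ≠ 0 →
      ((D ×ˢ D).filter (fun x => x.1 - x.2 = g)).card = 2)
    (hs : (s = 0 ∧ ∃ ν, D.card = 2 * ν + 2) ∨ ∃ ν, Odd ν ∧ D.card = 4 * ν + 2)
    (u : ZMod (2 ^ s)) (p : ZMod (2 ^ (s + 1))) (h : H) : Even (E D u p h) := by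
  obtain ⟨j, hj, hpow⟩ := exists_pow (H := H) hH
  have key : push (fun p => red H (slc D p)) u * inv (ZMod 2) H (red H (slc D p)) = 0 := by
    rcases Nat.eq_zero_or_pos s with rfl | hs0
    · obtain ⟨ν, hν⟩ : ∃ ν, D.card = 2 * ν + 2 := by
        rcases hs with ⟨_, h⟩ | ⟨ν, _, h⟩
        · exact h
        · exact ⟨2 * ν, by rw [h]; ring⟩
      have h1 : ∀ t, ∑ p, red H (slc D (p + t)) * inv (ZMod 2) H (red H (slc D p)) = 0 := by
        intro t
        have h := congrArg (red H) (slc_corr D (2 * ν) hrep hν t)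
        rw [map_sum] at h
        simp only [map_mul, red_inv, map_add, map_ofNat, two_eq_zero', zero_mul, add_zero] at h
        rw [h]
        split_ifs
        · push_cast
          rw [map_mul, map_ofNat, two_eq_zero']; simp
        · simp
      have h2 : push (fun p => red H (slc D p)) u = ∑ p, red H (slc D p) := by
        rw [← sum_push_eq]
        have : ∀ v : ZMod (2 ^ 0), v = u := fun v => Subsingleton.elim (α := ZMod 1) v u
        rw [Fintype.sum_eq_single u (fun v hv => absurd (this v) hv)]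
      rw [h2]
      exact parity_zero two_eq_zero' (inv (ZMod 2) H) hj hpow (s := 1)
        (fun p => red H (slc D p)) h1 p
    · obtain ⟨s, rfl⟩ : ∃ s', s = s' + 1 := ⟨s - 1, by omega⟩
      obtain ⟨ν, hν, hcard⟩ : ∃ ν, Odd ν ∧ D.card = 4 * ν + 2 := by
        rcases hs with ⟨h, _⟩ | h
        · omega
        · exact h
      refine parity_pos (red H) red_surjective red_ker two_cancel (inv ℤ H) (inv (ZMod 2) H)
        inv_inv' red_inv two_eq_zero' hj hpow ν hν (allOne H) (slc D) ?_ u p
      intro t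
      rw [slc_corr D (4 * ν) hrep hcard t]
      push_cast
      rfl
  have h1 : red H (push (slc D) u * inv ℤ H (slc D p)) = 0 := by
    rw [map_mul, red_inv, ← key]
    congr 1
    exact map_push (red H).toAddMonoidHom (slc D) u
  have h2 : (push (slc D) u * inv ℤ H (slc D p)).coeff h = (E D u p h : ℤ) := by
    rw [E_eq_sum]
    unfold push
    rw [Finset.sum_mul, coeff_sum, Finsupp.finsetSum_apply]
    push_cast
    refine Finset.sum_congr rfl fun p' _ => ?_
    split_ifs
    · exact coeff_slc_mul D p' p h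
    · simp
  have h3 : (red H (push (slc D) u * inv ℤ H (slc D p))).coeff h = 0 := by rw [h1]; rfl
  rw [red, coeff_mapRingHom, h2] at h3
  have h4 := (ZMod.intCast_zmod_eq_zero_iff_dvd _ 2).1 h3
  exact even_iff_two_dvd.2 (by exact_mod_cast h4)

end even

end Pool.Agent.Helper18.Ryser
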